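import Pool.Agent.H749R6.MG.Bet

/-! Let `t n → ∞` be any real sequence.  For almost every `x > 0` the distance from `t n * x` to the
nearest prime, divided by `log (t n)`, visits every interval `(a, b)` for a set of `n` of positive
upper density.  In particular there is no prime within `C log (t n)` of `t n * x` for a set of `n`
of positive upper density, for every `C`. -/

set_option autoImplicit false

namespace Pool.Agent.Results.MP_028722_nt.MetricDistances

open Filter MeasureTheory

theorem result : ∀ t : ℕ → ℝ, Tendsto t atTop atTop →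
    ∀ᵐ x : ℝ, 0 < x → ∀ a b : ℝ, 0 ≤ a → a < b → ∃ δ : ℝ, 0 < δ ∧ ∃ᶠ N : ℕ in atTop, δ * N ≤
      ({n : ℕ | n < N ∧ (∀ p : ℕ, p.Prime → a * Real.log (t n) < |t n * x - p|) ∧
        ∃ p : ℕ, p.Prime ∧ |t n * x - p| < b * Real.log (t n)}.ncard : ℝ) :=
  fun t ht => Pool.Agent.H749R6.MG.main2 t ht

end Pool.Agent.Results.MP_028722_nt.MetricDistances
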