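import Pool.Agent.H312R2.RG.Fin
import Pool.Agent.H312R2.RG.C1

set_option autoImplicit false

/-! # Chains of record gaps between primes

For every `k` there are at least `x^(7/8)` chains of `k` consecutive gaps, all of record size
`c log x (log_2 x)^2 log_4 x / (log_3 x)^2`, among the primes up to `x`.

Method: the Maynard-Tao weights are run inside the windows of the record sieve (square weights supported
on assignments of large primes to the survivors of the Erdos-Rankin sieve).

TEAM RG: helper312 (design, A, VW), helper256 and helper410 (record sieve), helper398 (COV, V2, RK),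
helper378 (library, L1, L2, C2, C4), helper273 (M1, C1), helper909 (M2), helper898 (DS), helper935 (C),
helper473 (F), helper778 (V1), helper777 (E), helper488 (C3), helper913 (C4), helper386 (S2). -/

namespace Pool.Agent.Results.MP_028722_nt.RecordChains

theorem result : ∀ k : ℕ, ∃ c : ℝ, 0 < c ∧ ∃ x₀ : ℝ, ∀ x : ℝ, x₀ ≤ x →
    x ^ (7 / 8 : ℝ) ≤ (Set.ncard {n : ℕ | (Nat.nth Nat.Prime (n + k) : ℝ) ≤ x ∧
      ∀ i < k, c * (Real.log x * (Real.log (Real.log x)) ^ 2 *
        Real.log (Real.log (Real.log (Real.log x))) /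
          (Real.log (Real.log (Real.log x))) ^ 2) ≤
        (Nat.nth Nat.Prime (n + i + 1) : ℝ) - (Nat.nth Nat.Prime (n + i) : ℝ)} : ℝ) := by
  intro k
  obtain ⟨c, hc, h⟩ := Pool.Agent.H312R2.RG.chains_of Pool.Agent.H312R2.RG.mtrg k
  obtain ⟨x₀, hx₀⟩ := Filter.eventually_atTop.1 h
  refine ⟨c, hc, max x₀ 0, fun x hx => (hx₀ x (le_trans (le_max_left _ _) hx)).trans ?_⟩
  have hx0 : 0 ≤ x := le_trans (le_max_right _ _) hx
  have hfin : {n : ℕ | (Nat.nth Nat.Prime (n + k) : ℝ) ≤ x ∧
      ∀ i < k, c * (Real.log x * (Real.log (Real.log x)) ^ 2 *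
        Real.log (Real.log (Real.log (Real.log x))) /
          (Real.log (Real.log (Real.log x))) ^ 2) ≤
        (Nat.nth Nat.Prime (n + i + 1) : ℝ) - (Nat.nth Nat.Prime (n + i) : ℝ)}.Finite := by
    refine (Set.finite_Iic ⌊x⌋₊).subset ?_
    rintro n ⟨h1, -⟩
    refine Nat.le_floor (le_trans ?_ h1)
    have h2 : n + k ≤ Nat.nth Nat.Prime (n + k) :=
      (Nat.nth_strictMono Nat.infinite_setOf_prime).le_apply
    exact_mod_cast (Nat.le_add_right n k).trans h2
  rw [Nat.cast_le, ← Set.ncard_coe_finset]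
  refine Set.ncard_le_ncard ?_ hfin
  intro n hn
  simp only [Finset.coe_filter, Finset.mem_range, Set.mem_setOf_eq] at hn
  exact hn.2

end Pool.Agent.Results.MP_028722_nt.RecordChains
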