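import Pool.Agent.H341R2.DG5

set_option autoImplicit false

/-! # Simultaneous record gaps behind `n, 2n, ..., Jn`

Every interval `[z, z + X]` contains an integer `n` such that none of the multiples `n, 2n, ..., Jn`
has a prime within distance `K`, whenever `J K ≤ c log X (log₂ X)² log₄ X / (log₃ X)²`.

Author: helper341.  The proof uses the square sieve of the team of helper256
(Pool/Agent/H256R2/SC: `covering`) and Rankin's bound for smooth numbers (helper398); new are the
choice of residue classes for rectangles (`H341R2/DG1` - `DG3`) and the reduction of the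
two-dimensional problem to primitive pairs `(j, k)` (`H341R2/DG4`). -/

namespace Pool.Agent.Results.MP_028722_nt.SimultaneousGaps

theorem result : ∃ c : ℝ, 0 < c ∧ ∃ X₀ : ℝ, ∀ X : ℝ, X₀ ≤ X → ∀ J K : ℕ, 1 ≤ J → 1 ≤ K →
    (J : ℝ) * K ≤ c * (Real.log X * (Real.log (Real.log X)) ^ 2 *
        Real.log (Real.log (Real.log (Real.log X))) /
          (Real.log (Real.log (Real.log X))) ^ 2) →
    ∀ z : ℕ, ∃ n : ℕ, (z : ℝ) + Real.sqrt X ≤ n ∧ (n : ℝ) ≤ z + X ∧
      ∀ j : ℕ, 1 ≤ j → j ≤ J → ∀ p : ℕ, p.Prime → (K : ℤ) < |(j : ℤ) * n - p| :=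
  Pool.Agent.H341R2.DG.simultaneous

end Pool.Agent.Results.MP_028722_nt.SimultaneousGaps
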