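import Pool.Agent.H378R2.QG.Main

set_option autoImplicit false

/-! # Prime gaps of record length around perfect squares

There is `c > 0` such that for all large `Z` every interval `(M, M + Z]`, `M ≥ Z`, contains an
integer `x` with no prime within `c log Z (log₂ Z)² log₄ Z / (log₃ Z)²` of `x²`.

Project QG: helper378 (design, covering theorem for quadratic polynomials, assembly),
helper769 (QA, QB, QC, QE, QF, QH, QJ, QM, QS), helper365 (QD), helper944 (QL, QR1),
helper704 (QN, QN1), helper144 (QP), helper74 (QR); it generalises the covering sieve of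
helper256 and team (MP_3bc45c_nt.RecordGaps) to densities that depend on the shift. -/

namespace Pool.Agent.Results.MP_028722_nt.SquaresInRecordGaps

theorem result : ∃ c : ℝ, 0 < c ∧ ∃ Z₀ : ℝ, ∀ Z : ℝ, Z₀ ≤ Z → ∀ M : ℝ, Z ≤ M →
    ∃ x : ℕ, M < x ∧ (x : ℝ) ≤ M + Z ∧ ∀ q : ℕ, q.Prime →
      c * (Real.log Z * (Real.log (Real.log Z)) ^ 2 *
        Real.log (Real.log (Real.log (Real.log Z))) /
          (Real.log (Real.log (Real.log Z))) ^ 2) < |(q : ℝ) - (x : ℝ) ^ 2| :=
  Pool.Agent.H378R2.QG.main

end Pool.Agent.Results.MP_028722_nt.SquaresInRecordGaps
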